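import Pool.Agent.H667R4.A4
import Mathlib.Algebra.Polynomial.Degree.Lemmas

/-! Algebraic part: linear combinations of functions whose logarithmic derivative is a quotient
of polynomials with few monomials. -/

namespace Helper51.EvenConn

open Polynomial H667R4

theorem coeff_comp_neg (P : ℝ[X]) (k : ℕ) : (P.comp (-X)).coeff k = (-1) ^ k * P.coeff k := by
  have h : (-X : ℝ[X]) = C (-1) * X := by simp
  rw [h, comp_C_mul_X_coeff]
  ring

theorem card_support_comp_neg (P : ℝ[X]) : (P.comp (-X)).support.card = P.support.card := by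
  congr 1
  ext k
  rw [mem_support_iff, mem_support_iff, coeff_comp_neg]
  simp

theorem isType_comp_neg {N : ℕ} {f : ℝ[X]} (hf : IsType N f) : IsType N (f.comp (-X)) := by
  obtain ⟨R, S, hS, hR, hS', e⟩ := hf
  refine ⟨-(R.comp (-X)), S.comp (-X), ?_, ?_, ?_, ?_⟩
  · intro h
    exact hS (comp_neg_X_eq_zero_iff.1 h)
  · rw [support_neg, card_support_comp_neg]; exact hR
  · rw [card_support_comp_neg]; exact hS'
  · rw [derivative_comp, derivative_neg, derivative_X]
    have h1 := congrArg (fun P : ℝ[X] => P.comp (-X)) e
    simp only [mul_comp] at h1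
    linear_combination -h1

theorem isType_X_pow_mul {N : ℕ} {f : ℝ[X]} (hf : IsType N f) (m : ℕ) :
    IsType (2 * N) (X ^ m * f) := by
  obtain ⟨R, S, hS, hR, hS', e⟩ := hf
  refine ⟨C (m : ℝ) * S + X * R, X * S, mul_ne_zero X_ne_zero hS, ?_, ?_, ?_⟩
  · refine (card_add _ _).trans ?_
    have h1 : (C (m : ℝ) * S).support.card ≤ 1 * N := by
      refine card_mul ?_ hS'
      have := card_support_C_mul_X_pow_le_one (c := (m : ℝ)) (n := 0)
      simpa using this
    have h2 : (X * R).support.card ≤ 1 * N := by
      refine card_mul ?_ hR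
      have := card_support_C_mul_X_pow_le_one (c := (1 : ℝ)) (n := 1)
      simpa using this
    omega
  · have h2 : (X * S).support.card ≤ 1 * N := by
      refine card_mul ?_ hS'
      have := card_support_C_mul_X_pow_le_one (c := (1 : ℝ)) (n := 1)
      simpa using this
    omega
  · have h1 := pow_ld (X : ℝ[X]) m
    rw [derivative_X] at h1
    rw [derivative_mul]
    linear_combination S * f * h1 + X * X ^ m * e

/-- A nonzero combination of `B` functions of type `N`, none of which vanishes at `1`,
has bounded order at `1`. -/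
theorem od_sum_le {N : ℕ} (hN : 1 ≤ N) : ∀ (B : ℕ) (T : Fin B → ℝ[X]) (_ : ∀ b, IsType N (T b))
    (_ : ∀ b, od (T b) = 0) (c : Fin B → ℝ), (∑ b, C (c b) * T b) ≠ 0 →
    od (∑ b, C (c b) * T b) ≤ E B N := by
  intro B
  induction B with
  | zero => intro T _ _ c h; simp at h
  | succ B ih =>
    intro T hT hT0 c h
    have hIH : ∀ d : Fin B → ℝ, (∑ b, C (c b) * T b) = ∑ b : Fin B, C (d b) * T b.castSucc →
        od (∑ b, C (c b) * T b) ≤ E (B + 1) N := by
      intro d hd
      rw [hd] at h ⊢
      exact (ih (fun b => T b.castSucc) (fun b => hT _) (fun b => hT0 _) d h).trans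
        (E_succ_le B N hN)
    by_cases hsp : InSp (fun b : Fin B => T b.castSucc) (T (Fin.last B))
    · obtain ⟨e, he⟩ := hsp
      apply hIH (fun b => c b.castSucc + c (Fin.last B) * e b)
      rw [Fin.sum_univ_castSucc, he, Finset.mul_sum, ← Finset.sum_add_distrib]
      apply Finset.sum_congr rfl
      intro b _
      rw [C_add, C_mul]; ring
    · by_cases hc : c (Fin.last B) = 0
      · apply hIH (fun b => c b.castSucc)
        rw [Fin.sum_univ_castSucc, hc]
        simp
      · have h1 := lemmaM B N hN (fun b => T b.castSucc) (T (Fin.last B)) (fun b => hT _) (hT _)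
          hsp (fun b => c b.castSucc / c (Fin.last B))
        have h2 : (∑ b, C (c b) * T b) = C (c (Fin.last B)) * (T (Fin.last B) +
            ∑ b : Fin B, C (c b.castSucc / c (Fin.last B)) * T b.castSucc) := by
          rw [Fin.sum_univ_castSucc, mul_add, Finset.mul_sum, add_comm]
          congr 1
          apply Finset.sum_congr rfl
          intro b _
          rw [← mul_assoc, ← C_mul]
          congr 2
          field_simp
        have h3 : (T (Fin.last B) +
            ∑ b : Fin B, C (c b.castSucc / c (Fin.last B)) * T b.castSucc) ≠ 0 := by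
          intro h0
          rw [h2, h0, mul_zero] at h
          exact h rfl
        rw [h2, od_mul (C_ne_zero.2 hc) h3]
        have h4 : od (C (c (Fin.last B))) = 0 := by unfold od; exact rootMultiplicity_C _ _
        rw [h4, zero_add]
        refine h1.trans ?_
        rw [hT0, zero_add]
        exact E_succ_le B N hN

/-- Well separated functions: if a combination with nonzero coefficients of functions whose
orders at `1` are pairwise far apart lies in the span of `B` functions, then there are at most
`B` of them. -/
theorem separated {ι : Type*} [Fintype ι] {B N : ℕ} (hN : 1 ≤ N) (T : Fin B → ℝ[X])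
    (hT : ∀ b, IsType N (T b)) (U : ι → ℝ[X]) (hU0 : ∀ i, U i ≠ 0) (hU : ∀ i, IsType N (U i))
    (hgap : ∀ i j, od (U i) < od (U j) → od (U i) + E B N < od (U j))
    (hinj : ∀ i j, od (U i) = od (U j) → i = j)
    (w : ι → ℝ) (hw : ∀ i, w i ≠ 0) (h : InSp T (∑ i, C (w i) * U i)) :
    Fintype.card ι ≤ B := by
  classical
  have hall : ∀ i, InSp T (U i) := by
    by_contra hcon
    push Not at hcon
    obtain ⟨i1, hi1⟩ := hcon
    have hne : (Finset.univ.filter (fun i => ¬ InSp T (U i))).Nonempty := ⟨i1, by simpa using hi1⟩
    obtain ⟨i0, hi0, hmin⟩ := Finset.exists_min_image _ (fun i => od (U i)) hne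
    rw [Finset.mem_filter] at hi0
    have hnot := hi0.2
    set A := Finset.univ.filter (fun i => od (U i) < od (U i0)) with hA
    set A' := Finset.univ.filter (fun i => od (U i0) < od (U i)) with hA'
    have hsplit : ∑ i, C (w i) * U i =
        ∑ i ∈ A, C (w i) * U i + C (w i0) * U i0 + ∑ i ∈ A', C (w i) * U i := by
      have e1 : (Finset.univ : Finset ι) = (A ∪ {i0}) ∪ A' := by
        ext i
        simp only [Finset.mem_univ, Finset.mem_union, Finset.mem_singleton, hA, hA',
          Finset.mem_filter, true_and, true_iff]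
        rcases lt_trichotomy (od (U i)) (od (U i0)) with h1 | h1 | h1
        · exact Or.inl (Or.inl h1)
        · exact Or.inl (Or.inr (hinj _ _ h1))
        · exact Or.inr h1
      have d1 : Disjoint A {i0} := by
        rw [Finset.disjoint_singleton_right, hA, Finset.mem_filter]
        rintro ⟨_, h1⟩
        exact lt_irrefl _ h1
      have d2 : Disjoint (A ∪ {i0}) A' := by
        rw [Finset.disjoint_left]
        intro i hi hi'
        rw [hA', Finset.mem_filter] at hi'
        rw [Finset.mem_union, Finset.mem_singleton, hA, Finset.mem_filter] at hi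
        rcases hi with hi | rfl
        · omega
        · omega
      rw [e1, Finset.sum_union d2, Finset.sum_union d1, Finset.sum_singleton]
    have hAin : InSp T (∑ i ∈ A, C (w i) * U i) := by
      apply InSp.sum
      intro i hi
      apply InSp.smul
      by_contra hc
      have := hmin i (by rw [Finset.mem_filter]; exact ⟨Finset.mem_univ _, hc⟩)
      rw [hA, Finset.mem_filter] at hi
      omega
    set H : ℝ[X] := ∑ i ∈ A', C (w i) * U i with hH
    have hrest : InSp T (C (w i0) * U i0 + H) := by
      have h1 := h.add (hAin.smul (-1))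
      rw [hsplit] at h1
      have h2 : ∑ i ∈ A, C (w i) * U i + C (w i0) * U i0 + H +
          C (-1) * ∑ i ∈ A, C (w i) * U i = C (w i0) * U i0 + H := by
        rw [C_neg, C_1]; ring
      rwa [h2] at h1
    obtain ⟨d, hd⟩ := hrest
    set F : ℝ[X] := U i0 + ∑ b, C (-(d b / w i0)) * T b with hF
    have hFH : F = C (-(1 / w i0)) * H := by
      have h1 : ∑ b, C (-(d b / w i0)) * T b = C (-(1 / w i0)) * ∑ b, C (d b) * T b := by
        rw [Finset.mul_sum]
        apply Finset.sum_congr rfl
        intro b _
        rw [← mul_assoc, ← C_mul]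
        congr 2
        ring
      rw [hF, h1, ← hd, mul_add, ← mul_assoc, ← C_mul]
      have h2 : -(1 / w i0) * w i0 = -1 := by
        have := hw i0
        field_simp
      rw [h2, C_neg, C_1]
      ring
    have hF0 : F ≠ 0 := by
      intro h1
      apply hnot
      refine ⟨fun b => d b / w i0, ?_⟩
      have h2 : ∑ b, C (-(d b / w i0)) * T b = - ∑ b, C (d b / w i0) * T b := by
        rw [← Finset.sum_neg_distrib]
        exact Finset.sum_congr rfl (fun b _ => by rw [C_neg]; ring)
      rw [hF, h2] at h1
      linear_combination h1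
    have hdvd : (X - C 1) ^ (od (U i0) + E B N + 1) ∣ H := by
      rw [hH]
      apply Finset.dvd_sum
      intro i hi
      apply Dvd.dvd.mul_left
      apply pow_dvd_of_le
      rw [hA', Finset.mem_filter] at hi
      exact hgap _ _ hi.2
    have h3 : od (U i0) + E B N + 1 ≤ od F := by
      apply le_od hF0
      rw [hFH]
      exact Dvd.dvd.mul_left hdvd _
    have h4 := lemmaM B N hN T (U i0) hT (hU _) hnot (fun b => -(d b / w i0))
    rw [← hF] at h4
    omega
  -- linear independence
  by_contra hcard
  push Not at hcard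
  choose c hc using hall
  let φ : (ι → ℝ) →ₗ[ℝ] (Fin B → ℝ) :=
    { toFun := fun l b => ∑ j, l j * c j b
      map_add' := by
        intro l m
        funext b
        simp only [Pi.add_apply, add_mul, Finset.sum_add_distrib]
      map_smul' := by
        intro a l
        funext b
        simp only [Pi.smul_apply, smul_eq_mul, RingHom.id_apply, Finset.mul_sum, mul_assoc] }
  have hker : LinearMap.ker φ ≠ ⊥ := by
    apply LinearMap.ker_ne_bot_of_finrank_lt
    simpa using hcard
  obtain ⟨l, hl, hl0⟩ := (Submodule.ne_bot_iff _).1 hker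
  have hl' : ∀ b, ∑ j, l j * c j b = 0 := by
    intro b
    have := congrFun (LinearMap.mem_ker.1 hl) b
    simpa [φ] using this
  have hrel : ∑ j, C (l j) * U j = 0 := by
    have h1 : ∀ j, C (l j) * U j = ∑ b, C (l j * c j b) * T b := by
      intro j
      conv_lhs => rw [hc j, Finset.mul_sum]
      exact Finset.sum_congr rfl (fun b _ => by rw [C_mul]; ring)
    simp only [h1]
    rw [Finset.sum_comm]
    apply Finset.sum_eq_zero
    intro b _
    rw [← Finset.sum_mul, ← map_sum, hl' b, C_0, zero_mul]
  have hne : (Finset.univ.filter (fun j => l j ≠ 0)).Nonempty := by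
    obtain ⟨j, hj⟩ := Function.ne_iff.1 hl0
    exact ⟨j, by simpa using hj⟩
  obtain ⟨j0, hj0, hmin⟩ := Finset.exists_min_image _ (fun i => od (U i)) hne
  rw [Finset.mem_filter] at hj0
  have h2 : (X - C 1) ^ (od (U j0) + 1) ∣ C (l j0) * U j0 := by
    have h3 : C (l j0) * U j0 = - ∑ j ∈ Finset.univ.erase j0, C (l j) * U j := by
      rw [← Finset.add_sum_erase _ _ (Finset.mem_univ j0)] at hrel
      linear_combination hrel
    rw [h3, dvd_neg]
    apply Finset.dvd_sum
    intro j hj
    have hjne : j ≠ j0 := (Finset.mem_erase.1 hj).1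
    by_cases hlj : l j = 0
    · rw [hlj]; simp
    · apply Dvd.dvd.mul_left
      apply pow_dvd_of_le
      have h5 := hmin j (by rw [Finset.mem_filter]; exact ⟨Finset.mem_univ _, hlj⟩)
      rcases Nat.lt_or_ge (od (U j0)) (od (U j)) with h6 | h6
      · exact h6
      · exact absurd (hinj _ _ (le_antisymm h6 h5)) hjne
  have h6 : C (l j0) * U j0 ≠ 0 := mul_ne_zero (C_ne_zero.2 hj0.2) (hU0 _)
  have h7 := le_od h6 h2
  rw [od_mul (C_ne_zero.2 hj0.2) (hU0 _)] at h7
  have h8 : od (C (l j0)) = 0 := by unfold od; exact rootMultiplicity_C _ _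
  omega

end Helper51.EvenConn
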