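import Mathlib.Combinatorics.SimpleGraph.Finite
import Mathlib.Combinatorics.SimpleGraph.Maps
import Mathlib.Combinatorics.SimpleGraph.DegreeSum
import Mathlib.Combinatorics.SimpleGraph.Connectivity.Connected
import Mathlib.Data.ZMod.ValMinAbs
import Mathlib.GroupTheory.Archimedean
import Mathlib.Data.Set.Card
import Mathlib.Data.Nat.Squarefree
import Mathlib.Data.Real.Basic
import Mathlib.Algebra.BigOperators.Ring.Finset
import Mathlib.Tactic

/-! Connected even graphs fixed by a permutation; the case of one cycle of odd length. -/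

namespace Helper51.EvenConn

/-- A graph is even if every vertex has even degree. -/
def EvenG {W : Type} (G : SimpleGraph W) : Prop := ∀ v, Even (G.neighborSet v).ncard

open Classical in
/-- `∑_G x ^ |E(G)|` over all connected even graphs `G` on `W` with `σ(G) = G`. -/
noncomputable def VG {W : Type} [Fintype W] (σ : Equiv.Perm W) (x : ℝ) : ℝ :=
  ∑ G : SimpleGraph W with (EvenG G ∧ G.Connected ∧ G.map σ = G), x ^ G.edgeSet.ncard

theorem map_perm_iff {W : Type} (σ : Equiv.Perm W) (G : SimpleGraph W) :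
    G.map σ = G ↔ ∀ u v, G.Adj (σ u) (σ v) ↔ G.Adj u v := by
  constructor
  · intro h u v
    constructor
    · intro h1
      rw [← h, SimpleGraph.map_adj'] at h1
      obtain ⟨_, u', v', h2, h3, h4⟩ := h1
      rw [σ.injective h3, σ.injective h4] at h2
      exact h2
    · intro h1
      rw [← h, SimpleGraph.map_adj']
      exact ⟨fun h2 => h1.ne (σ.injective h2), u, v, h1, rfl, rfl⟩
  · intro h
    ext a b
    rw [SimpleGraph.map_adj']
    constructor
    · rintro ⟨_, u', v', h2, rfl, rfl⟩
      exact (h u' v').2 h2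
    · intro h1
      refine ⟨h1.ne, σ.symm a, σ.symm b, ?_, by simp, by simp⟩
      rw [← h]
      simpa using h1

theorem conn_map {W W' : Type} (e : W ≃ W') (G : SimpleGraph W) :
    (G.map e).Connected ↔ G.Connected :=
  ((SimpleGraph.Iso.map e G).connected_iff).symm

theorem adj_map {W W' : Type} (e : W ≃ W') (G : SimpleGraph W) (u v : W) :
    (G.map e).Adj (e u) (e v) ↔ G.Adj u v := (SimpleGraph.Iso.map e G).map_adj_iff

theorem even_map {W W' : Type} (e : W ≃ W') (G : SimpleGraph W) :
    EvenG (G.map e) ↔ EvenG G := by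
  have h : ∀ v, ((G.map e).neighborSet (e v)).ncard = (G.neighborSet v).ncard := by
    intro v
    have h1 : (G.map e).neighborSet (e v) = e '' G.neighborSet v := by
      ext w
      obtain ⟨w, rfl⟩ := e.surjective w
      rw [SimpleGraph.mem_neighborSet, adj_map]
      simp
    rw [h1, Set.ncard_image_of_injective _ e.injective]
  constructor
  · intro h1 v
    rw [← h]
    exact h1 _
  · intro h1 v
    obtain ⟨v, rfl⟩ := e.surjective v
    rw [h]
    exact h1 _

theorem ncard_map {W W' : Type} (e : W ≃ W') (G : SimpleGraph W) :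
    (G.map e).edgeSet.ncard = G.edgeSet.ncard := by
  have h : (G.map e).edgeSet = Sym2.map e '' G.edgeSet := by
    ext z
    constructor
    · induction z using Sym2.ind with
      | _ a b =>
        intro h1
        obtain ⟨a, rfl⟩ := e.surjective a
        obtain ⟨b, rfl⟩ := e.surjective b
        rw [SimpleGraph.mem_edgeSet, adj_map] at h1
        exact ⟨s(a, b), h1, rfl⟩
    · rintro ⟨z, h1, rfl⟩
      induction z using Sym2.ind with
      | _ a b =>
        rw [Sym2.map_mk, SimpleGraph.mem_edgeSet]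
        exact (adj_map e G a b).2 h1
  rw [h, Set.ncard_image_of_injective _ (Sym2.map.injective e.injective)]

theorem VG_transport {W W' : Type} [Fintype W] [Fintype W'] (e : W ≃ W') (σ : Equiv.Perm W)
    (τ : Equiv.Perm W') (h : ∀ w, e (σ w) = τ (e w)) (x : ℝ) : VG σ x = VG τ x := by
  classical
  unfold VG
  have key : ∀ G : SimpleGraph W, (G.map e).map τ = G.map e ↔ G.map σ = G := by
    intro G
    rw [map_perm_iff, map_perm_iff]
    constructor
    · intro h1 u v
      have h2 := h1 (e u) (e v)
      rw [← h, ← h, adj_map, adj_map] at h2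
      exact h2
    · intro h1 u v
      obtain ⟨u, rfl⟩ := e.surjective u
      obtain ⟨v, rfl⟩ := e.surjective v
      rw [← h, ← h, adj_map, adj_map]
      exact h1 u v
  have inv1 : ∀ G : SimpleGraph W, (G.map e).map e.symm = G := by
    intro G
    ext a b
    have h1 := adj_map e.symm (G.map e) (e a) (e b)
    simp only [Equiv.symm_apply_apply] at h1
    rw [h1, adj_map]
  have inv2 : ∀ G : SimpleGraph W', (G.map e.symm).map e = G := by
    intro G
    ext a b
    have h1 := adj_map e (G.map e.symm) (e.symm a) (e.symm b)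
    simp only [Equiv.apply_symm_apply] at h1
    rw [h1, adj_map]
  refine Finset.sum_bij' (fun G _ => G.map e) (fun G _ => G.map e.symm) ?_ ?_ ?_ ?_ ?_
  · intro G hG
    rw [Finset.mem_filter] at hG ⊢
    exact ⟨Finset.mem_univ _, (even_map e G).2 hG.2.1, (conn_map e G).2 hG.2.2.1,
      (key G).2 hG.2.2.2⟩
  · intro G hG
    rw [Finset.mem_filter] at hG ⊢
    refine ⟨Finset.mem_univ _, (even_map e.symm G).2 hG.2.1, (conn_map e.symm G).2 hG.2.2.1, ?_⟩
    rw [← key, inv2]
    exact hG.2.2.2
  · intro G _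
    exact inv1 G
  · intro G _
    exact inv2 G
  · intro G _
    rw [ncard_map]

open Classical in
/-- The graphs in the sum. -/
noncomputable def cset {W : Type} [Fintype W] (σ : Equiv.Perm W) : Finset (SimpleGraph W) :=
  Finset.univ.filter (fun G => EvenG G ∧ G.Connected ∧ G.map σ = G)

theorem mem_cset {W : Type} [Fintype W] (σ : Equiv.Perm W) (G : SimpleGraph W) :
    G ∈ cset σ ↔ EvenG G ∧ G.Connected ∧ G.map σ = G := by
  classical
  unfold cset
  rw [Finset.mem_filter]
  simp

theorem VG_eq {W : Type} [Fintype W] (σ : Equiv.Perm W) (x : ℝ) :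
    VG σ x = ∑ G ∈ cset σ, x ^ G.edgeSet.ncard := rfl

section circ

variable {n : ℕ} [NeZero n]

/-- The absolute value of a residue. -/
def nm (d : ZMod n) : ℕ := d.valMinAbs.natAbs

omit [NeZero n] in
theorem nm_neg (d : ZMod n) : nm (-d) = nm d := by
  unfold nm
  exact ZMod.natAbs_valMinAbs_neg d

omit [NeZero n] in
theorem nm_eq_iff (a b : ZMod n) : nm a = nm b ↔ a = b ∨ a = -b :=
  ZMod.natAbs_valMinAbs_eq_natAbs_valMinAbs

omit [NeZero n] in
theorem nm_zero : nm (0 : ZMod n) = 0 := by
  unfold nm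
  rw [ZMod.valMinAbs_zero]; rfl

theorem nm_le (d : ZMod n) : nm d ≤ n / 2 := ZMod.natAbs_valMinAbs_le d

omit [NeZero n] in
theorem nm_pos {d : ZMod n} (h : d ≠ 0) : 1 ≤ nm d := by
  unfold nm
  rw [Nat.one_le_iff_ne_zero]
  intro h1
  rw [Int.natAbs_eq_zero, ZMod.valMinAbs_eq_zero] at h1
  exact h h1

theorem nm_cast_eq (d : ZMod n) : ((nm d : ℕ) : ZMod n) = d ∨ ((nm d : ℕ) : ZMod n) = -d := by
  unfold nm
  rw [ZMod.natCast_natAbs_valMinAbs]
  split_ifs
  · exact Or.inl rfl
  · exact Or.inr rfl

theorem nm_natCast {r : ℕ} (h : 2 * r < n) : nm (r : ZMod n) = r := by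
  unfold nm
  have h1 : ((r : ℕ) : ZMod n).valMinAbs = (r : ℤ) := by
    rw [ZMod.valMinAbs_spec]
    refine ⟨by simp, ?_⟩
    constructor
    · have : (0 : ℤ) < n := by exact_mod_cast Nat.pos_of_ne_zero (NeZero.ne n)
      have : (0 : ℤ) ≤ r := by positivity
      omega
    · omega
  rw [h1]
  simp

/-- The circulant graph with distances in `R`. -/
def circ (n : ℕ) (R : Finset ℕ) : SimpleGraph (ZMod n) where
  Adj u v := u ≠ v ∧ nm (v - u) ∈ R
  symm.symm u v := by
    rintro ⟨h1, h2⟩
    refine ⟨h1.symm, ?_⟩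
    rwa [← neg_sub, nm_neg]
  loopless.irrefl u := by
    rintro ⟨h1, _⟩
    exact h1 rfl

end circ

end Helper51.EvenConn
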