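import Pool.Agent.Helper51.EvenConn.B2

/-! Circulant graphs on `ZMod n`, `n` odd. -/

namespace Helper51.EvenConn

variable {n : ℕ} [NeZero n]

/-- The distances of a graph. -/
noncomputable def dist (G : SimpleGraph (ZMod n)) : Finset ℕ := by
  classical
  exact (Finset.Icc 1 ((n - 1) / 2)).filter (fun r => G.Adj 0 (r : ZMod n))

theorem trans_inv {G : SimpleGraph (ZMod n)} (hG : G.map (Equiv.addRight (1 : ZMod n)) = G)
    (u v t : ZMod n) : G.Adj (u + t) (v + t) ↔ G.Adj u v := by
  rw [map_perm_iff] at hG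
  have h : ∀ k : ℕ, ∀ u v : ZMod n, G.Adj (u + k) (v + k) ↔ G.Adj u v := by
    intro k
    induction k with
    | zero => intro u v; simp
    | succ k ih =>
      intro u v
      have h1 := hG (u + k) (v + k)
      simp only [Equiv.coe_addRight] at h1
      rw [Nat.cast_succ, ← add_assoc, ← add_assoc, h1, ih]
  have h2 := h t.val u v
  rwa [ZMod.natCast_zmod_val] at h2

theorem adj_iff_zero {G : SimpleGraph (ZMod n)} (hG : G.map (Equiv.addRight (1 : ZMod n)) = G)
    (u v : ZMod n) : G.Adj u v ↔ G.Adj 0 (v - u) := by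
  rw [← trans_inv hG 0 (v - u) u, zero_add, sub_add_cancel]

theorem adj_zero_neg {G : SimpleGraph (ZMod n)} (hG : G.map (Equiv.addRight (1 : ZMod n)) = G)
    (d : ZMod n) : G.Adj 0 (-d) ↔ G.Adj 0 d := by
  rw [G.adj_comm, adj_iff_zero hG (-d) 0, sub_neg_eq_add, zero_add]

theorem adj_nm {G : SimpleGraph (ZMod n)} (hG : G.map (Equiv.addRight (1 : ZMod n)) = G)
    (d : ZMod n) : G.Adj 0 ((nm d : ℕ) : ZMod n) ↔ G.Adj 0 d := by
  rcases nm_cast_eq d with h | h
  · rw [h]
  · rw [h, adj_zero_neg hG]

theorem circ_dist (hn : Odd n) {G : SimpleGraph (ZMod n)}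
    (hG : G.map (Equiv.addRight (1 : ZMod n)) = G) : circ n (dist G) = G := by
  classical
  ext u v
  show (u ≠ v ∧ nm (v - u) ∈ dist G) ↔ _
  unfold dist
  rw [Finset.mem_filter, Finset.mem_Icc, adj_nm hG, ← adj_iff_zero hG]
  constructor
  · rintro ⟨_, _, h⟩
    exact h
  · intro h
    refine ⟨h.ne, ⟨nm_pos ?_, ?_⟩, h⟩
    · intro h1
      exact h.ne (sub_eq_zero.1 h1).symm
    · have := nm_le (v - u)
      obtain ⟨m, hm⟩ := hn
      omega

theorem dist_circ (R : Finset ℕ) (hR : R ⊆ Finset.Icc 1 ((n - 1) / 2)) :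
    dist (circ n R) = R := by
  classical
  ext r
  unfold dist
  rw [Finset.mem_filter]
  show (_ ∧ ((0 : ZMod n) ≠ r ∧ nm ((r : ZMod n) - 0) ∈ R)) ↔ _
  rw [sub_zero]
  have hr : ∀ r ∈ Finset.Icc 1 ((n - 1) / 2), nm ((r : ℕ) : ZMod n) = r := by
    intro r hr
    rw [Finset.mem_Icc] at hr
    apply nm_natCast
    have := NeZero.ne n
    omega
  constructor
  · rintro ⟨h1, _, h2⟩
    rwa [hr r h1] at h2
  · intro h
    refine ⟨hR h, ?_, ?_⟩
    · intro h1
      have h2 := hr r (hR h)
      rw [← h1, nm_zero] at h2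
      have h3 := hR h
      rw [Finset.mem_Icc] at h3
      omega
    · rwa [hr r (hR h)]

omit [NeZero n] in
theorem circ_map (R : Finset ℕ) : (circ n R).map (Equiv.addRight (1 : ZMod n)) = circ n R := by
  rw [map_perm_iff]
  intro u v
  show (u + 1 ≠ v + 1 ∧ nm (v + 1 - (u + 1)) ∈ R) ↔ (u ≠ v ∧ nm (v - u) ∈ R)
  rw [add_sub_add_right_eq_sub]
  simp

theorem nbr_circ (R : Finset ℕ) (hR : R ⊆ Finset.Icc 1 ((n - 1) / 2)) (v : ZMod n) :
    ((circ n R).neighborSet v).ncard = 2 * R.card := by
  classical
  have hr : ∀ r ∈ R, nm ((r : ℕ) : ZMod n) = r := by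
    intro r hr
    have := hR hr
    rw [Finset.mem_Icc] at this
    apply nm_natCast
    have := NeZero.ne n
    omega
  have hpos : ∀ r ∈ R, 1 ≤ r := fun r h => (Finset.mem_Icc.1 (hR h)).1
  set A : Finset (ZMod n) := R.image (fun r : ℕ => v + (r : ZMod n)) with hA
  set A' : Finset (ZMod n) := R.image (fun r : ℕ => v - (r : ZMod n)) with hA'
  have hset : (circ n R).neighborSet v = ((A ∪ A' : Finset (ZMod n)) : Set (ZMod n)) := by
    ext w
    rw [SimpleGraph.mem_neighborSet]
    show (v ≠ w ∧ nm (w - v) ∈ R) ↔ _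
    rw [Finset.mem_coe, Finset.mem_union, hA, hA', Finset.mem_image, Finset.mem_image]
    constructor
    · rintro ⟨_, h2⟩
      rcases nm_cast_eq (w - v) with h | h
      · exact Or.inl ⟨_, h2, by rw [h]; ring⟩
      · exact Or.inr ⟨_, h2, by rw [h]; ring⟩
    · rintro (⟨r, h1, rfl⟩ | ⟨r, h1, rfl⟩)
      · have h2 : nm (v + (r : ZMod n) - v) = r := by
          rw [add_sub_cancel_left, hr r h1]
        refine ⟨?_, by rwa [h2]⟩
        intro h3
        rw [← h3, sub_self, nm_zero] at h2
        have := hpos r h1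
        omega
      · have h2 : nm (v - (r : ZMod n) - v) = r := by
          rw [sub_sub_cancel_left, nm_neg, hr r h1]
        refine ⟨?_, by rwa [h2]⟩
        intro h3
        rw [← h3, sub_self, nm_zero] at h2
        have := hpos r h1
        omega
  have cA : A.card = R.card := by
    rw [hA]
    apply Finset.card_image_of_injOn
    intro a ha b hb hab
    have h1 : (a : ZMod n) = b := by simpa using hab
    rw [← hr a ha, ← hr b hb, h1]
  have cA' : A'.card = R.card := by
    rw [hA']
    apply Finset.card_image_of_injOn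
    intro a ha b hb hab
    have h1 : (a : ZMod n) = b := by simpa using hab
    rw [← hr a ha, ← hr b hb, h1]
  have hdisj : Disjoint A A' := by
    rw [Finset.disjoint_left]
    intro w h1 h2
    rw [hA, Finset.mem_image] at h1
    rw [hA', Finset.mem_image] at h2
    obtain ⟨a, ha, rfl⟩ := h1
    obtain ⟨b, hb, hab⟩ := h2
    have h3 : (b : ZMod n) = -(a : ZMod n) := by linear_combination -hab
    have h4 : a = b := by
      rw [← hr a ha, ← hr b hb, h3, nm_neg]
    rw [h4] at h3
    have h5 : ((2 * b : ℕ) : ZMod n) = 0 := by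
      push_cast
      linear_combination h3
    rw [ZMod.natCast_eq_zero_iff] at h5
    have h6 := hpos b hb
    have h7 := Finset.mem_Icc.1 (hR hb)
    have h8 := Nat.le_of_dvd (by omega) h5
    have := NeZero.ne n
    omega
  rw [hset, Set.ncard_coe_finset, Finset.card_union_of_disjoint hdisj, cA, cA']
  ring

theorem two_mul_ncard {W : Type} [Fintype W] (G : SimpleGraph W) :
    ∑ v, (G.neighborSet v).ncard = 2 * G.edgeSet.ncard := by
  classical
  have h := G.sum_degrees_eq_twice_card_edges
  have h1 : ∀ v, (G.neighborSet v).ncard = G.degree v := by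
    intro v
    rw [← SimpleGraph.card_neighborSet_eq_degree, Set.ncard_eq_toFinset_card', Set.toFinset_card]
  simp only [h1]
  rw [h]
  congr 1
  rw [← SimpleGraph.coe_edgeFinset, Set.ncard_coe_finset]

theorem edges_circ (R : Finset ℕ) (hR : R ⊆ Finset.Icc 1 ((n - 1) / 2)) :
    (circ n R).edgeSet.ncard = n * R.card := by
  have h := two_mul_ncard (circ n R)
  simp only [nbr_circ R hR, Finset.sum_const, Finset.card_univ, ZMod.card, smul_eq_mul] at h
  have h2 : 2 * (circ n R).edgeSet.ncard = 2 * (n * R.card) := by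
    rw [← h]; ring
  omega

theorem conn_circ (R : Finset ℕ) (hR : R ⊆ Finset.Icc 1 ((n - 1) / 2)) :
    (circ n R).Connected ↔ ∀ q ∈ n.primeFactors, ∃ r ∈ R, ¬ q ∣ r := by
  have hr : ∀ r ∈ R, nm ((r : ℕ) : ZMod n) = r := by
    intro r hr
    have := hR hr
    rw [Finset.mem_Icc] at this
    apply nm_natCast
    have := NeZero.ne n
    omega
  have hpos : ∀ r ∈ R, 1 ≤ r := fun r h => (Finset.mem_Icc.1 (hR h)).1
  constructor
  · intro hc q hq
    by_contra hcon
    push Not at hcon
    have hqp := Nat.prime_of_mem_primeFactors hq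
    have hqn := Nat.dvd_of_mem_primeFactors hq
    have hstep : ∀ u v : ZMod n, (circ n R).Adj u v →
        ZMod.castHom hqn (ZMod q) u = ZMod.castHom hqn (ZMod q) v := by
      rintro u v ⟨_, h1⟩
      obtain ⟨k, hk⟩ := hcon _ h1
      have h2 : ZMod.castHom hqn (ZMod q) (v - u) = 0 := by
        rcases nm_cast_eq (v - u) with h | h
        · rw [← h, map_natCast, hk]
          simp
        · have h3 : v - u = -((nm (v - u) : ℕ) : ZMod n) := by rw [h]; ring
          rw [h3, map_neg, map_natCast, hk]
          simp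
      rw [map_sub, sub_eq_zero] at h2
      exact h2.symm
    have hreach : ∀ u v : ZMod n, (circ n R).Reachable u v →
        ZMod.castHom hqn (ZMod q) u = ZMod.castHom hqn (ZMod q) v := by
      rintro u v ⟨w⟩
      induction w with
      | nil => rfl
      | cons h _ ih => exact (hstep _ _ h).trans ih
    have h1 := hreach 0 1 (hc.preconnected 0 1)
    rw [map_zero, map_one] at h1
    have : Fact (1 < q) := ⟨hqp.one_lt⟩
    exact zero_ne_one h1
  · intro h
    -- the subgroup reachable from 0
    have htr : ∀ (t u v : ZMod n), (circ n R).Reachable u v →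
        (circ n R).Reachable (u + t) (v + t) := by
      intro t u v huv
      have hadj : ∀ a b : ZMod n, (circ n R).Adj a b → (circ n R).Adj (a + t) (b + t) :=
        fun a b hab => (trans_inv (circ_map R) a b t).2 hab
      exact huv.map ⟨fun a => a + t, fun {a b} hab => hadj a b hab⟩
    let H : AddSubgroup (ZMod n) :=
      { carrier := {a | (circ n R).Reachable 0 a}
        zero_mem' := SimpleGraph.Reachable.refl _
        add_mem' := by
          intro a b ha hb
          have h1 := htr a 0 b hb
          rw [zero_add, add_comm] at h1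
          exact SimpleGraph.Reachable.trans ha h1
        neg_mem' := by
          intro a ha
          have h1 := htr (-a) 0 a ha
          rw [zero_add, add_neg_cancel] at h1
          exact h1.symm }
    have hRH : ∀ r ∈ R, ((r : ℕ) : ZMod n) ∈ H := by
      intro r hrR
      apply SimpleGraph.Adj.reachable
      refine ⟨?_, ?_⟩
      · intro h1
        have h2 := hr r hrR
        rw [← h1, nm_zero] at h2
        have := hpos r hrR
        omega
      · rw [sub_zero, hr r hrR]
        exact hrR
    obtain ⟨g, hg⟩ := Int.subgroup_cyclic (H.comap (Int.castAddHom (ZMod n)))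
    have hmem : ∀ z : ℤ, ((z : ℤ) : ZMod n) ∈ H ↔ g ∣ z := by
      intro z
      have h1 : z ∈ H.comap (Int.castAddHom (ZMod n)) ↔ ((z : ℤ) : ZMod n) ∈ H := Iff.rfl
      rw [← h1, hg, AddSubgroup.mem_closure_singleton]
      constructor
      · rintro ⟨k, rfl⟩
        exact ⟨k, by rw [smul_eq_mul, mul_comm]⟩
      · rintro ⟨k, rfl⟩
        exact ⟨k, by rw [smul_eq_mul, mul_comm]⟩
    have hgn : g ∣ (n : ℤ) := by
      rw [← hmem]
      simpa using H.zero_mem
    have hg1 : g.natAbs = 1 := by
      by_contra hne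
      obtain ⟨q, hq, hqg⟩ := Nat.exists_prime_and_dvd hne
      have hqn : q ∣ n := by
        have : g.natAbs ∣ n := by
          have := Int.natAbs_dvd_natAbs.2 hgn
          simpa using this
        exact hqg.trans this
      obtain ⟨r, hr1, hr2⟩ := h q (Nat.mem_primeFactors.2 ⟨hq, hqn, NeZero.ne n⟩)
      apply hr2
      have h3 : g ∣ (r : ℤ) := by
        rw [← hmem]
        simpa using hRH r hr1
      have h4 := Int.natAbs_dvd_natAbs.2 h3
      rw [Int.natAbs_natCast] at h4
      exact hqg.trans h4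
    have hall : ∀ a : ZMod n, a ∈ H := by
      intro a
      have h1 : ((a.val : ℤ) : ZMod n) ∈ H := by
        rw [hmem]
        exact (Int.isUnit_iff_natAbs_eq.2 hg1).dvd
      simpa using h1
    have : Nonempty (ZMod n) := ⟨0⟩
    refine SimpleGraph.Connected.mk ?_
    intro u v
    exact (SimpleGraph.Reachable.symm (hall u)).trans (hall v)

theorem VG_cycle (hn : Odd n) (x : ℝ) :
    VG (Equiv.addRight (1 : ZMod n)) x =
      ∑ R ∈ (Finset.Icc 1 ((n - 1) / 2)).powerset with (∀ q ∈ n.primeFactors, ∃ r ∈ R, ¬ q ∣ r),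
        x ^ (n * R.card) := by
  classical
  rw [VG_eq]
  refine Finset.sum_bij' (fun G _ => dist G) (fun R _ => circ n R) ?_ ?_ ?_ ?_ ?_
  · intro G hG
    rw [mem_cset] at hG
    have hsub : dist G ⊆ Finset.Icc 1 ((n - 1) / 2) := by
      unfold dist
      exact Finset.filter_subset _ _
    rw [Finset.mem_filter, Finset.mem_powerset]
    refine ⟨hsub, ?_⟩
    rw [← conn_circ _ hsub, circ_dist hn hG.2.2]
    exact hG.2.1
  · intro R hR
    rw [Finset.mem_filter, Finset.mem_powerset] at hR
    rw [mem_cset]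
    refine ⟨?_, (conn_circ _ hR.1).2 hR.2, circ_map R⟩
    intro v
    rw [nbr_circ R hR.1]
    exact even_two_mul _
  · intro G hG
    rw [mem_cset] at hG
    exact circ_dist hn hG.2.2
  · intro R hR
    rw [Finset.mem_filter, Finset.mem_powerset] at hR
    exact dist_circ (n := n) R hR.1
  · intro G hG
    rw [mem_cset] at hG
    have hsub : dist G ⊆ Finset.Icc 1 ((n - 1) / 2) := by
      unfold dist
      exact Finset.filter_subset _ _
    rw [← edges_circ _ hsub, circ_dist hn hG.2.2]

end Helper51.EvenConn
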