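import Pool.Agent.Helper51.EvenConn.B1
import Pool.Agent.Helper51.EvenConn.B3
import Mathlib.Topology.Instances.Real.Lemmas

/-! The series of connected even graphs fixed by an `n`-cycle, `n` odd. -/

namespace Helper51.EvenConn

open Polynomial H667R4

theorem prod_primes_dvd_iff (P : Finset ℕ) (hP : ∀ q ∈ P, q.Prime) (r : ℕ) :
    (∏ q ∈ P, q) ∣ r ↔ ∀ q ∈ P, q ∣ r := by
  constructor
  · intro h q hq
    exact (Finset.dvd_prod_of_mem _ hq).trans h
  · intro h
    exact Finset.prod_primes_dvd r (fun q hq => (hP q hq).prime) h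

theorem VG_formula {n : ℕ} [NeZero n] (hn : Odd n) (x : ℝ) :
    VG (Equiv.addRight (1 : ZMod n)) x =
      ∑ P ∈ n.primeFactors.powerset,
        (-1 : ℝ) ^ P.card * (1 + x ^ n) ^ (((n - 1) / 2) / ∏ q ∈ P, q) := by
  classical
  rw [VG_cycle hn, Finset.sum_filter]
  set I := Finset.Icc 1 ((n - 1) / 2) with hI
  have h1 : ∀ R ∈ I.powerset,
      (if (∀ q ∈ n.primeFactors, ∃ r ∈ R, ¬ q ∣ r) then x ^ (n * R.card) else 0) =
      ∑ P ∈ n.primeFactors.powerset,
        (if (∀ r ∈ R, (∏ q ∈ P, q) ∣ r) then (-1 : ℝ) ^ P.card * x ^ (n * R.card) else 0) := by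
    intro R _
    have h2 : (if (∀ q ∈ n.primeFactors, ∃ r ∈ R, ¬ q ∣ r) then x ^ (n * R.card) else 0) =
        (∏ q ∈ n.primeFactors, (1 + (if (∀ r ∈ R, q ∣ r) then (-1 : ℝ) else 0))) *
          x ^ (n * R.card) := by
      split_ifs with h
      · rw [Finset.prod_eq_one, one_mul]
        intro q hq
        obtain ⟨r, hr1, hr2⟩ := h q hq
        rw [if_neg, add_zero]
        intro h3
        exact hr2 (h3 r hr1)
      · push Not at h
        obtain ⟨q, hq, h3⟩ := h
        rw [Finset.prod_eq_zero hq, zero_mul]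
        rw [if_pos h3]
        norm_num
    rw [h2, Finset.prod_one_add, Finset.sum_mul]
    apply Finset.sum_congr rfl
    intro P hP
    rw [Finset.mem_powerset] at hP
    have hprime : ∀ q ∈ P, q.Prime := fun q hq => Nat.prime_of_mem_primeFactors (hP hq)
    split_ifs with h
    · congr 1
      rw [← Finset.prod_const]
      apply Finset.prod_congr rfl
      intro q hq
      rw [if_pos]
      intro r hr
      exact (prod_primes_dvd_iff P hprime r).1 (h r hr) q hq
    · push Not at h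
      obtain ⟨r, hr, h3⟩ := h
      rw [prod_primes_dvd_iff P hprime] at h3
      push Not at h3
      obtain ⟨q, hq, h4⟩ := h3
      rw [Finset.prod_eq_zero hq, zero_mul]
      rw [if_neg]
      intro h5
      exact h4 (h5 r hr)
  rw [Finset.sum_congr rfl h1, Finset.sum_comm]
  apply Finset.sum_congr rfl
  intro P hP
  rw [Finset.mem_powerset] at hP
  have hdpos : 0 < ∏ q ∈ P, q :=
    Finset.prod_pos (fun q hq => (Nat.prime_of_mem_primeFactors (hP hq)).pos)
  set d := ∏ q ∈ P, q with hd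
  have hcard : (I.filter (fun r => d ∣ r)).card = ((n - 1) / 2) / d := by
    have := Nat.Ioc_filter_dvd_card_eq_div ((n - 1) / 2) d
    rw [← this, hI]
    rfl
  rw [← Finset.sum_filter]
  have h3 : (I.powerset.filter (fun R => ∀ r ∈ R, d ∣ r)) = (I.filter (fun r => d ∣ r)).powerset := by
    ext R
    simp only [Finset.mem_filter, Finset.mem_powerset, Finset.subset_iff]
    constructor
    · rintro ⟨h4, h5⟩ r hr
      exact ⟨h4 hr, h5 r hr⟩
    · intro h4
      exact ⟨fun r hr => (h4 hr).1, fun r hr => (h4 hr).2⟩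
  rw [h3, ← Finset.mul_sum, ← hcard]
  congr 1
  have h4 := Finset.prod_one_add (f := fun _ : ℕ => x ^ n) (s := I.filter (fun r => d ∣ r))
  simp only [Finset.prod_const] at h4
  rw [h4]
  apply Finset.sum_congr rfl
  intro R _
  rw [pow_mul]

theorem od_one_sub_X_pow_pow {n : ℕ} (hn : 1 ≤ n) (s : ℕ) : od ((1 - X ^ n : ℝ[X]) ^ s) = s := by
  have h1 : (1 - X ^ n : ℝ[X]) = (1 - X) * ∑ i ∈ Finset.range n, X ^ i := by
    rw [mul_comm]
    have := geom_sum_mul (X : ℝ[X]) n
    linear_combination this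
  have h2 : (∑ i ∈ Finset.range n, X ^ i : ℝ[X]).eval 1 = n := by
    rw [eval_finsetSum]
    simp
  have h0 : (∑ i ∈ Finset.range n, X ^ i : ℝ[X]) ≠ 0 := by
    intro h
    rw [h, eval_zero] at h2
    have : (n : ℝ) ≠ 0 := by positivity
    exact this h2.symm
  have h3 : od ((∑ i ∈ Finset.range n, X ^ i : ℝ[X]) ^ s) = 0 := by
    unfold od
    rw [rootMultiplicity_eq_zero]
    rw [IsRoot, eval_pow, h2]
    positivity
  have hX : (1 - X : ℝ[X]) ≠ 0 := by simpa using one_sub_X_pow_ne (le_refl 1)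
  rw [h1, mul_pow, od_mul (pow_ne_zero _ hX) (pow_ne_zero _ h0), h3, od_one_sub_pow, add_zero]

/-- The exponents. -/
theorem expo_facts {n : ℕ} (hn : Odd n) (P P' : Finset ℕ) (hP : P ⊆ n.primeFactors)
    (hP' : P' ⊆ n.primeFactors) :
    (((n - 1) / 2) / (∏ q ∈ P, q) = ((n - 1) / 2) / (∏ q ∈ P', q) → 
      0 < n / ∏ q ∈ n.primeFactors, q → P = P') ∧
    (((n - 1) / 2) / (∏ q ∈ P, q) < ((n - 1) / 2) / (∏ q ∈ P', q) →
      2 * (((n - 1) / 2) / (∏ q ∈ P, q)) + n / ∏ q ∈ n.primeFactors, q ≤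
      2 * (((n - 1) / 2) / (∏ q ∈ P', q))) := by
  have hn0 : n ≠ 0 := by rintro rfl; exact absurd hn (by decide)
  set g := n / ∏ q ∈ n.primeFactors, q with hg
  have hrad : (∏ q ∈ n.primeFactors, q) * g = n := Nat.mul_div_cancel' (Nat.prod_primeFactors_dvd n)
  have key : ∀ Q : Finset ℕ, Q ⊆ n.primeFactors → ∃ c : ℕ, (∏ q ∈ Q, q) * c = n ∧
      2 * (((n - 1) / 2) / (∏ q ∈ Q, q)) + 1 = c ∧ g ∣ c := by
    intro Q hQ
    refine ⟨(∏ q ∈ n.primeFactors \ Q, q) * g, ?_, ?_, Dvd.intro_left _ rfl⟩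
    · rw [← mul_assoc, mul_comm (∏ q ∈ Q, q), Finset.prod_sdiff hQ, hrad]
    · set c := (∏ q ∈ n.primeFactors \ Q, q) * g with hc
      have h1 : (∏ q ∈ Q, q) * c = n := by
        rw [hc, ← mul_assoc, mul_comm (∏ q ∈ Q, q), Finset.prod_sdiff hQ, hrad]
      set d := ∏ q ∈ Q, q with hd
      have hodd : Odd d ∧ Odd c := by
        rw [← Nat.odd_mul, h1]; exact hn
      obtain ⟨⟨a, ha⟩, ⟨b, hb⟩⟩ := hodd
      have h2 : (n - 1) / 2 = d * b + a := by
        rw [← h1, hb]
        have : d * (2 * b + 1) = 2 * (d * b) + d := by ring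
        rw [this]
        omega
      have h3 : (d * b + a) / d = b := by
        rw [Nat.mul_add_div (by omega), Nat.div_eq_of_lt (by omega), add_zero]
      rw [h2, h3, hb]
  obtain ⟨c, h1, h2, h3⟩ := key P hP
  obtain ⟨c', h1', h2', h3'⟩ := key P' hP'
  constructor
  · intro h _
    have hcc : c = c' := by omega
    have hprod : (∏ q ∈ P, q) = ∏ q ∈ P', q := by
      have hc0 : 0 < c := by
        rcases Nat.eq_zero_or_pos c with h0 | h0
        · rw [h0, mul_zero] at h1
          exact absurd h1.symm hn0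
        · exact h0
      rw [← hcc] at h1'
      exact Nat.eq_of_mul_eq_mul_right hc0 (h1.trans h1'.symm)
    rw [← Nat.primeFactors_prod (fun q hq => Nat.prime_of_mem_primeFactors (hP hq)), hprod,
      Nat.primeFactors_prod (fun q hq => Nat.prime_of_mem_primeFactors (hP' hq))]
  · intro h
    have hlt : c < c' := by omega
    obtain ⟨u, hu⟩ := h3
    obtain ⟨v, hv⟩ := h3'
    have huv : u < v := by
      by_contra hcon
      push Not at hcon
      have := Nat.mul_le_mul_left g hcon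
      omega
    have h5 := Nat.mul_le_mul_left g (Nat.succ_le_of_lt huv)
    have h6 : g * (u + 1) = g * u + g := by ring
    rw [Nat.succ_eq_add_one, h6] at h5
    omega

end Helper51.EvenConn
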