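import Pool.Agent.Helper51.EvenConn.B4
import Mathlib.Combinatorics.SimpleGraph.CycleGraph
import Mathlib.Data.ZMod.Basic

/-! The two non-existence theorems. -/

namespace Helper51.EvenConn

open Polynomial H667R4

theorem zpow_shift {y : ℝ} (hy : y ≠ 0) {n : ℕ} {a : ℤ} (h : 0 ≤ (n : ℤ) + a) :
    y ^ n * y ^ a = y ^ ((n : ℤ) + a).toNat := by
  rw [← zpow_natCast y n, ← zpow_add₀ hy, ← zpow_natCast y ((n : ℤ) + a).toNat,
    Int.toNat_of_nonneg h]

theorem edges_ge {p : ℕ} (hp : 2 ≤ p) (G : SimpleGraph (Fin p)) (he : EvenG G)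
    (hc : G.Connected) : p ≤ G.edgeSet.ncard := by
  classical
  have h := two_mul_ncard G
  have h1 : ∀ v ∈ (Finset.univ : Finset (Fin p)), 2 ≤ (G.neighborSet v).ncard := by
    intro v _
    have : Nontrivial (Fin p) := Fin.nontrivial_iff_two_le.2 hp
    have h2 := hc.preconnected.degree_pos_of_nontrivial v
    have h3 : (G.neighborSet v).ncard = G.degree v := by
      rw [← SimpleGraph.card_neighborSet_eq_degree, Set.ncard_eq_toFinset_card',
        Set.toFinset_card]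
    obtain ⟨k, hk⟩ := he v
    omega
  have h2 := Finset.card_nsmul_le_sum _ _ _ h1
  rw [Finset.card_univ, Fintype.card_fin, smul_eq_mul, h] at h2
  omega

/-- The common part of both arguments: clearing denominators. -/
theorem clear {B : ℕ} (K : Finset ℕ) (hK : ∀ k ∈ K, 1 ≤ k) (c : Fin B → ℝ) (m : Fin B → ℤ)
    (a b : Fin B → ℕ → ℤ) (P : ℝ[X])
    (h : ∀ x ∈ Set.Ioo (0 : ℝ) 1, P.eval x =
      ∑ t, c t * x ^ m t * ∏ k ∈ K, (1 + x ^ k) ^ a t k * (1 - x ^ k) ^ b t k)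
    (e : ℕ) (he : ∀ t, ∀ k ∈ K, (a t k).natAbs + (b t k).natAbs ≤ e)
    (f : ℕ) (hf : ∀ t, (m t).natAbs ≤ f) :
    (X ^ f * ∏ k ∈ K, (1 + X ^ k) ^ e * (1 - X ^ k) ^ e) * P =
      ∑ t, C (c t) * (X ^ ((f : ℤ) + m t).toNat * ∏ k ∈ K, (1 + X ^ k) ^ ((e : ℤ) + a t k).toNat *
        (1 - X ^ k) ^ ((e : ℤ) + b t k).toNat) := by
  apply Polynomial.eq_of_infinite_eval_eq
  refine Set.Infinite.mono ?_ (Set.Ioo_infinite (show (0 : ℝ) < 1 by norm_num))
  intro x hx
  have hx' := h x hx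
  rw [Set.mem_ofPred_eq, eval_mul, hx', eval_finsetSum, Finset.mul_sum]
  apply Finset.sum_congr rfl
  intro t _
  have hft := hf t
  have e0 := zpow_shift (y := x) hx.1.ne' (n := f) (a := m t) (by omega)
  have e1 : (∏ k ∈ K, (1 + X ^ k) ^ e * (1 - X ^ k) ^ e : ℝ[X]).eval x *
      ∏ k ∈ K, (1 + x ^ k) ^ a t k * (1 - x ^ k) ^ b t k =
      (∏ k ∈ K, (1 + X ^ k) ^ ((e : ℤ) + a t k).toNat *
        (1 - X ^ k) ^ ((e : ℤ) + b t k).toNat : ℝ[X]).eval x := by
    rw [eval_prod, eval_prod, ← Finset.prod_mul_distrib]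
    apply Finset.prod_congr rfl
    intro k hk
    have hk1 := hK k hk
    have hxk0 : 0 < x ^ k := pow_pos hx.1 k
    have hxk1 : x ^ k < 1 := pow_lt_one₀ hx.1.le hx.2 (by omega)
    have hb := he t k hk
    have e1 := zpow_shift (y := 1 + x ^ k) (by positivity) (n := e) (a := a t k) (by omega)
    have e2 := zpow_shift (y := 1 - x ^ k) (by linarith) (n := e) (a := b t k) (by omega)
    simp only [eval_mul, eval_pow, eval_add, eval_sub, eval_one, eval_X]
    rw [← e1, ← e2]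
    ring
  rw [eval_mul, eval_mul (p := C (c t)), eval_C, eval_mul (p := X ^ ((f : ℤ) + m t).toNat), ← e1,
    eval_pow, eval_X, eval_pow, eval_X, ← e0]
  ring

theorem exists_bounds {B : ℕ} (K : Finset ℕ) (m : Fin B → ℤ) (a b : Fin B → ℕ → ℤ) :
    ∃ e f : ℕ, (∀ t, ∀ k ∈ K, (a t k).natAbs + (b t k).natAbs ≤ e) ∧
      (∀ t, (m t).natAbs ≤ f) := by
  refine ⟨∑ t, ∑ k ∈ K, ((a t k).natAbs + (b t k).natAbs), ∑ t, (m t).natAbs, ?_, ?_⟩
  · intro t k hk
    refine le_trans ?_ (Finset.single_le_sum (f := fun t => ∑ k ∈ K,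
      ((a t k).natAbs + (b t k).natAbs)) (fun _ _ => Nat.zero_le _) (Finset.mem_univ t))
    exact Finset.single_le_sum (f := fun k => (a t k).natAbs + (b t k).natAbs)
      (fun _ _ => Nat.zero_le _) hk
  · intro t
    exact Finset.single_le_sum (f := fun t => (m t).natAbs)
      (fun _ _ => Nat.zero_le _) (Finset.mem_univ t)

theorem comp_one_sub_twice (f : ℝ[X]) : (f.comp (1 - X)).comp (1 - X) = f := by
  rw [comp_assoc]
  simp

theorem comp_one_sub_ne {f : ℝ[X]} (hf : f ≠ 0) : f.comp (1 - X) ≠ 0 := by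
  intro h
  apply hf
  rw [← comp_one_sub_twice f, h, zero_comp]

theorem natDegree_one_sub_X : (1 - X : ℝ[X]).natDegree ≤ 1 := by
  refine (natDegree_sub_le _ _).trans ?_
  simp

theorem isType_comp_one_sub {n d : ℕ} {f : ℝ[X]} (hf : HasLD n d f) :
    IsType (d + 1) (f.comp (1 - X)) := by
  obtain ⟨R, S, hS, _, _, dR, dS, e⟩ := hf
  refine ⟨-(R.comp (1 - X)), S.comp (1 - X), comp_one_sub_ne hS, ?_, ?_, ?_⟩
  · rw [support_neg]
    refine (card_supp_le_succ_natDegree _).trans ?_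
    have h1 := natDegree_comp_le (p := R) (q := (1 - X : ℝ[X]))
    have h2 := Nat.mul_le_mul dR natDegree_one_sub_X
    omega
  · refine (card_supp_le_succ_natDegree _).trans ?_
    have h1 := natDegree_comp_le (p := S) (q := (1 - X : ℝ[X]))
    have h2 := Nat.mul_le_mul dS natDegree_one_sub_X
    omega
  · rw [derivative_comp, derivative_sub, derivative_one, derivative_X]
    have h1 := congrArg (fun P : ℝ[X] => P.comp (1 - X)) e
    simp only [mul_comp] at h1
    linear_combination -h1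

theorem part_all (B p : ℕ) (hp2 : 2 ≤ p) (α : Equiv.Perm (Fin p)) (hex : (cset α).Nonempty)
    (K : Finset ℕ) (hK : ∀ k ∈ K, 1 ≤ k) (hp : (8 * (2 * ∑ k ∈ K, k + 1)) ^ 4 ^ B < p)
    (c : Fin B → ℝ) (a b : Fin B → ℕ → ℤ) :
    ¬ ∀ x ∈ Set.Ioo (0 : ℝ) 1, VG α x =
      ∑ t, c t * ∏ k ∈ K, (1 + x ^ k) ^ a t k * (1 - x ^ k) ^ b t k := by
  intro h
  obtain ⟨e, f, he, hf⟩ := exists_bounds K (fun _ : Fin B => (0 : ℤ)) a b
  set P : ℝ[X] := ∑ G ∈ cset α, X ^ G.edgeSet.ncard with hP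
  have hev : ∀ x, P.eval x = VG α x := by
    intro x
    rw [hP, VG_eq, eval_finsetSum]
    simp
  have hcl := clear K hK c (fun _ => (0 : ℤ)) a b P (by
    intro x hx
    rw [hev, h x hx]
    apply Finset.sum_congr rfl
    intro t _
    rw [zpow_zero, mul_one]) e he 0 (by simp)
  simp only [pow_zero, one_mul, Nat.cast_zero, zero_add, Int.toNat_zero] at hcl
  set M0 : ℝ[X] := ∏ k ∈ K, (1 + X ^ k) ^ e * (1 - X ^ k) ^ e with hM0
  set T : Fin B → ℝ[X] := fun t => ∏ k ∈ K, (1 + X ^ k) ^ ((e : ℤ) + a t k).toNat *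
    (1 - X ^ k) ^ ((e : ℤ) + b t k).toNat with hT
  have hM : M0 ≠ 0 := by
    rw [hM0, Finset.prod_ne_zero_iff]
    intro k hk
    exact mul_ne_zero (pow_ne_zero _ (one_add_X_pow_ne k))
      (pow_ne_zero _ (one_sub_X_pow_ne (hK k hk)))
  have hP0 : P ≠ 0 := by
    intro h0
    have h1 : P.eval 1 = (cset α).card := by
      rw [hP, eval_finsetSum]
      simp
    rw [h0, eval_zero] at h1
    have h2 : (0 : ℝ) < (cset α).card := by exact_mod_cast hex.card_pos
    linarith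
  have hN1 : 1 ≤ 2 * ∑ k ∈ K, k + 1 := by omega
  have hTt : ∀ t, IsType (2 * ∑ k ∈ K, k + 1) ((T t).comp (1 - X)) := fun t =>
    isType_comp_one_sub (HasLD.prod K hK (fun k => ((e : ℤ) + a t k).toNat)
      (fun k => ((e : ℤ) + b t k).toNat))
  have hTo : ∀ t, od ((T t).comp (1 - X)) = 0 := by
    intro t
    unfold od
    apply rootMultiplicity_eq_zero
    rw [IsRoot.def, eval_comp]
    simp only [eval_sub, eval_one, eval_X, sub_self, hT]
    rw [eval_prod, Finset.prod_eq_one]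
    · exact one_ne_zero
    · intro k hk
      have := hK k hk
      simp [zero_pow (show k ≠ 0 by omega)]
  have hsum : (M0 * P).comp (1 - X) = ∑ t, C (c t) * (T t).comp (1 - X) := by
    rw [hcl, sum_comp]
    apply Finset.sum_congr rfl
    intro t _
    rw [mul_comp, C_comp]
  have hne : (∑ t, C (c t) * (T t).comp (1 - X)) ≠ 0 := by
    rw [← hsum]
    exact comp_one_sub_ne (mul_ne_zero hM hP0)
  have h1 := od_sum_le hN1 B (fun t => (T t).comp (1 - X)) hTt hTo c hne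
  have h2 : X ^ p ∣ P := by
    rw [hP]
    apply Finset.dvd_sum
    intro G hG
    rw [mem_cset] at hG
    exact pow_dvd_pow _ (edges_ge hp2 G hG.1 hG.2.1)
  have h3 : p ≤ od (∑ t, C (c t) * (T t).comp (1 - X)) := by
    apply le_od hne
    rw [← hsum, mul_comp]
    apply Dvd.dvd.mul_left
    obtain ⟨Q, hQ⟩ := h2
    rw [hQ, mul_comp]
    apply Dvd.dvd.mul_right
    rw [X_pow_comp]
    apply pow_dvd_pow_of_dvd
    exact ⟨-1, by simp⟩
  have h4 := E_le B (2 * ∑ k ∈ K, k + 1) hN1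
  omega

theorem part_cycle (B n : ℕ) (hn : Odd n) (hB : B < 2 ^ n.primeFactors.card)
    (K : Finset ℕ) (hK : ∀ k ∈ K, 1 ≤ k)
    (hg : 2 * (16 * ((K.card + 1) * 2 ^ (K.card + 1))) ^ 4 ^ B < n / ∏ q ∈ n.primeFactors, q)
    (c : Fin B → ℝ) (m : Fin B → ℤ) (a b : Fin B → ℕ → ℤ) :
    ¬ ∀ x ∈ Set.Ioo (0 : ℝ) 1, VG (finRotate n) x =
      ∑ t, c t * x ^ m t * ∏ k ∈ K, (1 + x ^ k) ^ a t k * (1 - x ^ k) ^ b t k := by
  intro h
  have hn0 : n ≠ 0 := by rintro rfl; exact absurd hn (by decide)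
  have : NeZero n := ⟨hn0⟩
  obtain ⟨e, f, he, hf⟩ := exists_bounds K m a b
  set N0 : ℕ := (K.card + 1) * 2 ^ (K.card + 1) with hN0
  have hN1 : 1 ≤ 2 * N0 := by
    have : 1 ≤ N0 := Nat.mul_pos (by omega) (by positivity)
    omega
  set ι := {P : Finset ℕ // P ∈ n.primeFactors.powerset} with hι
  let ex : Finset ℕ → ℕ := fun P => ((n - 1) / 2) / ∏ q ∈ P, q
  have htr : ∀ x, VG (finRotate n) x = VG (Equiv.addRight (1 : ZMod n)) x := by
    intro x
    apply VG_transport (ZMod.finEquiv n).toEquiv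
    intro w
    rw [finRotate_apply]
    exact map_add (ZMod.finEquiv n) w 1 |>.trans (by rw [map_one]; rfl)
  set P : ℝ[X] := ∑ Q ∈ n.primeFactors.powerset, C ((-1 : ℝ) ^ Q.card) * (1 + X ^ n) ^ ex Q
    with hP
  have hev : ∀ x, P.eval x = VG (finRotate n) x := by
    intro x
    rw [hP, htr, VG_formula hn, eval_finsetSum]
    apply Finset.sum_congr rfl
    intro Q _
    rw [eval_mul, eval_C]
    simp [ex]
  have hcl := clear K hK c m a b P (by
    intro x hx
    rw [hev, h x hx]) e he f hf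
  set M1 : ℝ[X] := ∏ k ∈ K, (1 + X ^ k) ^ e * (1 - X ^ k) ^ e with hM1
  set T : Fin B → ℝ[X] := fun t => X ^ ((f : ℤ) + m t).toNat *
    ∏ k ∈ K, (1 + X ^ k) ^ ((e : ℤ) + a t k).toNat *
    (1 - X ^ k) ^ ((e : ℤ) + b t k).toNat with hT
  have hM : M1 ≠ 0 := by
    rw [hM1, Finset.prod_ne_zero_iff]
    intro k hk
    exact mul_ne_zero (pow_ne_zero _ (one_add_X_pow_ne k))
      (pow_ne_zero _ (one_sub_X_pow_ne (hK k hk)))
  have hn1 : 1 ≤ n := by omega
  have hTt : ∀ t, IsType (2 * N0) ((T t).comp (-X)) := by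
    intro t
    apply isType_comp_neg
    apply isType_X_pow_mul
    have h1 := (HasLD.prod K hK (fun k => ((e : ℤ) + a t k).toNat)
      (fun k => ((e : ℤ) + b t k).toNat)).mul hn1 0 0
    have h2 := h1.isType (N := N0) (Or.inl ⟨by omega, le_rfl⟩)
    simpa using h2
  let U : ι → ℝ[X] := fun Q => ((X ^ f * M1) * (1 + X ^ n) ^ ex Q.1).comp (-X)
  have hUne : ∀ Q, (X ^ f * M1) * (1 + X ^ n) ^ ex Q ≠ 0 := fun Q =>
    mul_ne_zero (mul_ne_zero (pow_ne_zero _ X_ne_zero) hM) (pow_ne_zero _ (one_add_X_pow_ne n))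
  have hU0 : ∀ Q, U Q ≠ 0 := by
    intro Q h0
    exact hUne Q.1 (comp_neg_X_eq_zero_iff.1 h0)
  have hU : ∀ Q, IsType (2 * N0) (U Q) := by
    intro Q
    apply isType_comp_neg
    rw [mul_assoc]
    apply isType_X_pow_mul
    have h1 := (HasLD.prod K hK (fun _ => e) (fun _ => e)).mul hn1 (ex Q.1) 0
    have h2 := h1.isType (N := N0) (Or.inl ⟨by omega, le_rfl⟩)
    simpa using h2
  have hod : ∀ Q : ι, od (U Q) = od ((X ^ f * M1).comp (-X)) + ex Q.1 := by
    intro Q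
    have h1 : U Q = (X ^ f * M1).comp (-X) * (1 - X ^ n) ^ ex Q.1 := by
      show ((X ^ f * M1) * (1 + X ^ n) ^ ex Q.1).comp (-X) = _
      rw [mul_comp (X ^ f * M1), pow_comp, add_comp, one_comp, X_pow_comp, hn.neg_pow,
        ← sub_eq_add_neg]
    have h2 : (X ^ f * M1).comp (-X) ≠ 0 := by
      intro h0
      exact mul_ne_zero (pow_ne_zero _ X_ne_zero) hM (comp_neg_X_eq_zero_iff.1 h0)
    rw [h1, od_mul h2 (pow_ne_zero _ (one_sub_X_pow_ne hn1)), od_one_sub_X_pow_pow hn1]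
  have hE := E_le B (2 * N0) hN1
  have hE' : 2 * E B (2 * N0) < n / ∏ q ∈ n.primeFactors, q := by
    have h1 : 8 * (2 * N0) = 16 * N0 := by ring
    rw [h1] at hE
    omega
  have hsub : ∀ Q : ι, Q.1 ⊆ n.primeFactors := fun Q => Finset.mem_powerset.1 Q.2
  have hgap : ∀ i j, od (U i) < od (U j) → od (U i) + E B (2 * N0) < od (U j) := by
    intro i j hij
    rw [hod, hod] at hij ⊢
    have h1 := (expo_facts hn i.1 j.1 (hsub i) (hsub j)).2 (by
      show ex i.1 < ex j.1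
      omega)
    have h2 : 2 * ex i.1 + n / ∏ q ∈ n.primeFactors, q ≤ 2 * ex j.1 := h1
    omega
  have hinj : ∀ i j, od (U i) = od (U j) → i = j := by
    intro i j hij
    rw [hod, hod] at hij
    apply Subtype.ext
    exact (expo_facts hn i.1 j.1 (hsub i) (hsub j)).1 (by
      show ex i.1 = ex j.1
      omega) (by omega)
  have hin : InSp (fun t => (T t).comp (-X)) (∑ i : ι, C ((-1 : ℝ) ^ i.1.card) * U i) := by
    refine ⟨c, ?_⟩
    have h1 : (∑ i : ι, C ((-1 : ℝ) ^ i.1.card) * U i) = ((X ^ f * M1) * P).comp (-X) := by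
      rw [hP, Finset.mul_sum, sum_comp]
      rw [← Finset.sum_coe_sort n.primeFactors.powerset]
      apply Finset.sum_congr rfl
      intro i _
      show C ((-1 : ℝ) ^ i.1.card) * ((X ^ f * M1) * (1 + X ^ n) ^ ex i.1).comp (-X) = _
      rw [mul_comp (X ^ f * M1), mul_comp (X ^ f * M1), mul_comp (C _), C_comp]
      ring
    rw [h1, hcl, sum_comp]
    apply Finset.sum_congr rfl
    intro t _
    rw [mul_comp, C_comp]
  have hcard := separated hN1 (fun t => (T t).comp (-X)) hTt U hU0 hU hgap hinj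
    (fun i => (-1 : ℝ) ^ i.1.card) (fun i => pow_ne_zero _ (by norm_num)) hin
  have hcard2 : Fintype.card ι = 2 ^ n.primeFactors.card := by
    have h1 : Fintype.card ι = n.primeFactors.powerset.card := Fintype.card_coe _
    rw [h1, Finset.card_powerset]
  omega

theorem exists_one {p : ℕ} (hp : 3 ≤ p) : ∃ G : SimpleGraph (Fin p),
    EvenG G ∧ G.Connected ∧ G.map (1 : Equiv.Perm (Fin p)) = G := by
  obtain ⟨k, rfl⟩ : ∃ k, p = k + 3 := ⟨p - 3, by omega⟩
  refine ⟨SimpleGraph.cycleGraph (k + 3), ?_, SimpleGraph.cycleGraph_connected, ?_⟩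
  · intro v
    have h3 : ((SimpleGraph.cycleGraph (k + 3)).neighborSet v).ncard =
        (SimpleGraph.cycleGraph (k + 3)).degree v := by
      rw [← SimpleGraph.card_neighborSet_eq_degree, Set.ncard_eq_toFinset_card',
        Set.toFinset_card]
    rw [h3, SimpleGraph.cycleGraph_degree_three_le]
    decide
  · exact SimpleGraph.map_id _

/-- The hypotheses on `n` in the second item of `result` can be met. -/
theorem exists_n (B C : ℕ) : ∃ n : ℕ, Odd n ∧ B < 2 ^ n.primeFactors.card ∧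
    C < n / ∏ q ∈ n.primeFactors, q := by
  have hinf : Set.Infinite {p : ℕ | p.Prime ∧ p ≠ 2} := by
    have h1 : {p : ℕ | p.Prime ∧ p ≠ 2} = {p : ℕ | p.Prime} \ {2} := by
      ext p; simp
    rw [h1]
    exact Nat.infinite_setOfPred_prime.sdiff (Set.finite_singleton 2)
  obtain ⟨s, hs, hcard⟩ := hinf.exists_subset_card_eq (B + 1)
  have hprime : ∀ q ∈ s, q.Prime := fun q hq => (hs hq).1
  set r := ∏ q ∈ s, q with hr
  have hpf : r.primeFactors = s := Nat.primeFactors_prod hprime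
  have hodd : Odd r := by
    rw [hr]
    refine Finset.prod_induction _ (fun a : ℕ => Odd a) (fun a b ha hb => ha.mul hb) odd_one ?_
    intro q hq
    exact (hprime q hq).odd_of_ne_two (hs hq).2
  have hr0 : r ≠ 0 := by rintro h0; rw [h0] at hodd; exact absurd hodd (by decide)
  refine ⟨r ^ (C + 2), hodd.pow, ?_, ?_⟩
  · rw [Nat.primeFactors_pow _ (by omega), hpf, hcard]
    have := Nat.lt_two_pow_self (n := B + 1)
    omega
  · rw [Nat.primeFactors_pow _ (by omega), hpf, ← hr, pow_succ,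
      Nat.mul_div_cancel _ (Nat.pos_of_ne_zero hr0)]
    have hr2 : 2 ≤ r := by
      have h1 : s.Nonempty := by
        rw [← Finset.card_pos, hcard]; omega
      obtain ⟨q, hq⟩ := h1
      exact (hprime q hq).two_le.trans
        (Nat.le_of_dvd (Nat.pos_of_ne_zero hr0) (Finset.dvd_prod_of_mem _ hq))
    calc C < C + 1 := Nat.lt_succ_self C
      _ < 2 ^ (C + 1) := Nat.lt_two_pow_self
      _ ≤ r ^ (C + 1) := Nat.pow_le_pow_left hr2 _

theorem VG_rotate {n : ℕ} (hn : Odd n) (x : ℝ) : VG (finRotate n) x =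
    ∑ P ∈ n.primeFactors.powerset,
      (-1 : ℝ) ^ P.card * (1 + x ^ n) ^ ((n / (∏ q ∈ P, q) - 1) / 2) := by
  have hn0 : n ≠ 0 := by rintro rfl; exact absurd hn (by decide)
  have : NeZero n := ⟨hn0⟩
  have htr : ∀ x, VG (finRotate n) x = VG (Equiv.addRight (1 : ZMod n)) x := by
    intro x
    apply VG_transport (ZMod.finEquiv n).toEquiv
    intro w
    rw [finRotate_apply]
    exact map_add (ZMod.finEquiv n) w 1 |>.trans (by rw [map_one]; rfl)
  rw [htr, VG_formula hn]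
  apply Finset.sum_congr rfl
  intro P hP
  rw [Finset.mem_powerset] at hP
  congr 2
  have hdvd : (∏ q ∈ P, q) ∣ n :=
    (Finset.prod_dvd_prod_of_subset _ _ _ hP).trans (Nat.prod_primeFactors_dvd n)
  obtain ⟨c, hc⟩ := hdvd
  set d := ∏ q ∈ P, q with hd
  have hodd : Odd d ∧ Odd c := by
    rw [← Nat.odd_mul, ← hc]; exact hn
  obtain ⟨⟨a, ha⟩, ⟨b, hb⟩⟩ := hodd
  have h2 : (n - 1) / 2 = d * b + a := by
    rw [hc, hb]
    have : d * (2 * b + 1) = 2 * (d * b) + d := by ring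
    rw [this]
    omega
  have h3 : (d * b + a) / d = b := by
    rw [Nat.mul_add_div (by omega), Nat.div_eq_of_lt (by omega), add_zero]
  have h4 : n / d = c := by
    rw [hc]; exact Nat.mul_div_cancel_left c (by omega)
  rw [h2, h3, h4, hb]
  omega

end Helper51.EvenConn
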